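import Pool.Agent.BEK.Stmts
import Pool.Agent.Helper3_BES.PWK

/-! # Squad BEK (MP_be01ff_an), row RWK: the Laplacian of a radial function, weak form -/

set_option autoImplicit false

namespace Pool.Agent.BEK.H27

open Set Filter Topology MeasureTheory
open scoped InnerProductSpace ENNReal
open Pool.Agent.BE01 Pool.Agent.BED Pool.Agent.BEJ Pool.Agent.BEK
open Pool.Agent.BES (Lg)
open Pool.Agent.BES.H3

noncomputable section

theorem rwk_open (a b : ℝ) : IsOpen (An a b) :=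
  (isOpen_lt continuous_const continuous_norm).inter (isOpen_lt continuous_norm continuous_const)

theorem rwk_pos {a b : ℝ} (ha : 0 < a) {x : En 2} (hx : x ∈ An a b) : 0 < ‖x‖ ^ 2 := by
  have h1 : a < ‖x‖ := hx.1
  have h2 : 0 < ‖x‖ := ha.trans h1
  positivity

/-- radial functions are smooth on the annulus -/
theorem rwk_smooth {a b : ℝ} (ha : 0 < a) {h : ℝ → ℝ}
    (hh : ContDiffOn ℝ ((⊤ : ℕ∞) : WithTop ℕ∞) h (Ioi 0)) :
    ContDiffOn ℝ ((⊤ : ℕ∞) : WithTop ℕ∞) (fun y : En 2 => h (‖y‖ ^ 2)) (An a b) :=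
  hh.comp (contDiff_norm_sq ℝ).contDiffOn fun _ hx => rwk_pos ha hx

theorem rwk_deriv {h : ℝ → ℝ} (hh : ContDiffOn ℝ ((⊤ : ℕ∞) : WithTop ℕ∞) h (Ioi 0)) :
    ContDiffOn ℝ ((⊤ : ℕ∞) : WithTop ℕ∞) (deriv h) (Ioi 0) :=
  hh.deriv_of_isOpen isOpen_Ioi (by simp)

theorem rwk_fderiv {h : ℝ → ℝ} (hh : ContDiffOn ℝ ((⊤ : ℕ∞) : WithTop ℕ∞) h (Ioi 0)) (x : En 2)
    (hx : 0 < ‖x‖ ^ 2) :
    HasFDerivAt (fun y : En 2 => h (‖y‖ ^ 2)) (deriv h (‖x‖ ^ 2) • (2 • innerSL ℝ x)) x := by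
  have h1 : HasDerivAt h (deriv h (‖x‖ ^ 2)) (‖x‖ ^ 2) :=
    ((hh.contDiffAt (Ioi_mem_nhds hx)).differentiableAt (by simp)).hasDerivAt
  exact h1.comp_hasFDerivAt x (hasStrictFDerivAt_norm_sq x).hasFDerivAt

theorem rwk_fderiv' {h : ℝ → ℝ} (hh : ContDiffOn ℝ ((⊤ : ℕ∞) : WithTop ℕ∞) h (Ioi 0)) (x w : En 2)
    (hx : 0 < ‖x‖ ^ 2) :
    fderiv ℝ (fun y : En 2 => h (‖y‖ ^ 2)) x w = 2 * deriv h (‖x‖ ^ 2) * ⟪x, w⟫_ℝ := by
  rw [(rwk_fderiv hh x hx).fderiv]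
  simp only [_root_.smul_apply, innerSL_apply_apply, smul_eq_mul, nsmul_eq_mul]
  push_cast
  ring

theorem rwk : RwkStmt := by
  intro a b g ψ ha hab hg hψ
  have hΩ := rwk_open a b
  have hg' := rwk_deriv hg
  have hg'' := rwk_deriv hg'
  set K : En 2 → ℝ := fun y => 2 * deriv g (‖y‖ ^ 2) with hK
  have hKs : ContDiffOn ℝ ((⊤ : ℕ∞) : WithTop ℕ∞) K (An a b) :=
    contDiffOn_const.mul (rwk_smooth ha hg')
  set u : En 2 → ℝ := fun x => ψ x * K x with hu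
  have huT : Tst (An a b) u := mul_smooth hΩ hψ hKs
  obtain ⟨hBi, hB⟩ := euler_int huT.1 huT.2.1
  have dψ : ∀ x, DifferentiableAt ℝ ψ x := fun x => (hψ.1.differentiable (by simp)) x
  have p1 : ∀ x ∈ An a b, ⟪gradient ψ x, gradient (fun y => g (‖y‖ ^ 2)) x⟫_ℝ =
      2 * deriv g (‖x‖ ^ 2) * ⟪gradient ψ x, x⟫_ℝ := by
    intro x hx
    rw [real_inner_comm, grad_inner, rwk_fderiv' hg x _ (rwk_pos ha hx), real_inner_comm]
  have p3 : ∀ x ∈ An a b, fderiv ℝ u x x = 2 * deriv g (‖x‖ ^ 2) * ⟪gradient ψ x, x⟫_ℝ +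
      ψ x * (2 * (2 * deriv (deriv g) (‖x‖ ^ 2) * ‖x‖ ^ 2)) := by
    intro x hx
    have h0 : HasFDerivAt K ((2 : ℝ) • (deriv (deriv g) (‖x‖ ^ 2) • (2 • innerSL ℝ x))) x :=
      (rwk_fderiv hg' x (rwk_pos ha hx)).const_mul 2
    have h1 : HasFDerivAt u (ψ x • ((2 : ℝ) • (deriv (deriv g) (‖x‖ ^ 2) • (2 • innerSL ℝ x))) +
        K x • fderiv ℝ ψ x) x := (dψ x).hasFDerivAt.mul h0
    rw [h1.fderiv]
    simp only [_root_.add_apply, _root_.smul_apply, smul_eq_mul, innerSL_apply_apply, nsmul_eq_mul]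
    rw [← grad_inner, real_inner_self_eq_norm_sq]
    simp only [hK]
    push_cast
    ring
  have key : ∀ x ∈ An a b, ⟪gradient ψ x, gradient (fun y => g (‖y‖ ^ 2)) x⟫_ℝ =
      (fderiv ℝ u x x + 2 * u x) - ψ x * Lg 0 0 g (‖x‖ ^ 2) := by
    intro x hx
    rw [p1 x hx, p3 x hx]
    simp only [hu, hK, Lg]
    ring
  have hmeas : MeasurableSet (An a b) := hΩ.measurableSet
  have hae : ∀ᵐ x ∂(mu (An a b)), x ∈ An a b := ae_restrict_mem hmeas
  have iB : Integrable (fun x => fderiv ℝ u x x + 2 * u x) (mu (An a b)) :=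
    hBi.mono_measure Measure.restrict_le_self
  have iC : Integrable (fun x => ψ x * Lg 0 0 g (‖x‖ ^ 2)) (mu (An a b)) := by
    have h1 : ContinuousOn (fun x : En 2 => Lg 0 0 g (‖x‖ ^ 2)) (An a b) := by
      have c1 : ContinuousOn (fun x : En 2 => deriv (deriv g) (‖x‖ ^ 2)) (An a b) :=
        (rwk_smooth ha hg'').continuousOn
      have c2 : ContinuousOn (fun x : En 2 => deriv g (‖x‖ ^ 2)) (An a b) :=
        (rwk_smooth ha hg').continuousOn
      have c3 : ContinuousOn (fun x : En 2 => g (‖x‖ ^ 2)) (An a b) :=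
        (rwk_smooth ha hg).continuousOn
      have c4 : ContinuousOn (fun x : En 2 => ‖x‖ ^ 2) (An a b) :=
        (continuous_norm.pow 2).continuousOn
      unfold Lg
      exact (((continuousOn_const.mul c4).mul c1).add
        (continuousOn_const.mul c2)).add (continuousOn_const.mul c3)
    obtain ⟨h2, h3⟩ := cont_ext (v := fun x => ψ x * Lg 0 0 g (‖x‖ ^ 2)) hΩ
      hψ.2.1 hψ.2.2 (hψ.1.continuous.continuousOn.mul h1)
      (fun x hx => by
        show ψ x * _ = 0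
        rw [image_eq_zero_of_notMem_tsupport hx, zero_mul])
    exact (h2.integrable_of_hasCompactSupport h3).mono_measure Measure.restrict_le_self
  have hB' : ∫ x, (fderiv ℝ u x x + 2 * u x) ∂(mu (An a b)) = 0 := by
    rw [← hB]
    refine setIntegral_eq_integral_of_forall_compl_eq_zero fun x hx => ?_
    have h1 : x ∉ tsupport u := fun h => hx (huT.2.2 h)
    rw [fderiv_zero_of h1, image_eq_zero_of_notMem_tsupport h1]
    simp
  rw [integral_congr_ae (hae.mono fun x hx => key x hx)]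
  have e1 : ∫ x, ((fderiv ℝ u x x + 2 * u x) - ψ x * Lg 0 0 g (‖x‖ ^ 2)) ∂(mu (An a b)) =
      (∫ x, (fderiv ℝ u x x + 2 * u x) ∂(mu (An a b))) -
        ∫ x, ψ x * Lg 0 0 g (‖x‖ ^ 2) ∂(mu (An a b)) := integral_sub iB iC
  rw [e1, hB', zero_sub]

end

end Pool.Agent.BEK.H27
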